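import Pool.Agent.V11238.MG.Cov

/-!
# Finitely presented groups covered by the conjugates of a cyclic subgroup: reduction to simple
groups
-/

set_option autoImplicit false

open Subgroup

namespace Pool.Agent.Results.MP_3ca58e_al.SimpleReduction

/-- Property (C): some `a` has the property that every element is conjugate to a power of `a`. -/
def PropC (G : Type) [Group G] : Prop := ∃ a : G, ∀ g : G, ∃ k : ℤ, IsConj g (a ^ k)

theorem propC_iff (G : Type) [Group G] : PropC G ↔ ∃ a : G, Pool.Agent.V11238.MG.Cov a := by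
  constructor
  · rintro ⟨a, h⟩
    refine ⟨a, fun g => ?_⟩
    obtain ⟨k, hk⟩ := h g
    obtain ⟨c, hc⟩ := isConj_iff.1 hk
    exact ⟨k, c⁻¹, by rw [← hc]; group⟩
  · rintro ⟨a, h⟩
    refine ⟨a, fun g => ?_⟩
    obtain ⟨k, x, hx⟩ := h g
    exact ⟨k, isConj_iff.2 ⟨x⁻¹, by rw [hx]; group⟩⟩

/-- If `G` is a finitely presented non-cyclic group with property (C), then some quotient `Q` of `G`
has an infinite, simple, finitely presented commutator subgroup of finite index with property (C).
Hence there is a finitely presented non-cyclic group with property (C) if and only if there is an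
infinite simple one. -/
theorem result :
    (∀ (G : Type) [Group G], Group.IsFinitelyPresented G → ¬ IsCyclic G → PropC G →
      ∃ (N : Subgroup G) (_ : N.Normal), N.IsFinitelyNormallyGenerated ∧
        (commutator (G ⧸ N)).FiniteIndex ∧ IsSimpleGroup (commutator (G ⧸ N)) ∧
        Infinite (commutator (G ⧸ N)) ∧ Group.IsFinitelyPresented (commutator (G ⧸ N)) ∧
        PropC (commutator (G ⧸ N))) ∧
    ((∃ (G : Type) (_ : Group G), Group.IsFinitelyPresented G ∧ ¬ IsCyclic G ∧ PropC G) ↔
      ∃ (G : Type) (_ : Group G), Group.IsFinitelyPresented G ∧ IsSimpleGroup G ∧ Infinite G ∧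
        PropC G) := by
  have h1 : ∀ (G : Type) [Group G], Group.IsFinitelyPresented G → ¬ IsCyclic G → PropC G →
      ∃ (N : Subgroup G) (_ : N.Normal), N.IsFinitelyNormallyGenerated ∧
        (commutator (G ⧸ N)).FiniteIndex ∧ IsSimpleGroup (commutator (G ⧸ N)) ∧
        Infinite (commutator (G ⧸ N)) ∧ Group.IsFinitelyPresented (commutator (G ⧸ N)) ∧
        PropC (commutator (G ⧸ N)) := by
    intro G _ hfp hnc hC
    obtain ⟨a, ha⟩ := (propC_iff G).1 hC
    obtain ⟨N, hN, h1, h2, -, h4, h5, h6⟩ := Pool.Agent.V11238.MG.cov_main hnc ha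
    exact ⟨N, hN, ha.fng N, h1, h2, h4, h5, (propC_iff _).2 h6⟩
  refine ⟨h1, ?_, ?_⟩
  · rintro ⟨G, _, hfp, hnc, hC⟩
    obtain ⟨N, hN, -, -, h2, h4, h5, h6⟩ := h1 G hfp hnc hC
    exact ⟨commutator (G ⧸ N), inferInstance, h5, h2, h4, h6⟩
  · rintro ⟨G, _, hfp, hs, hinf, hC⟩
    refine ⟨G, _, hfp, fun hc => ?_, hC⟩
    -- an infinite cyclic group is not simple
    obtain ⟨c, hc⟩ := IsCyclic.exists_generator (α := G)
    have h0 : orderOf c = 0 := Infinite.orderOf_eq_zero_of_forall_mem_zpowers hc
    have hinj : ∀ k : ℤ, c ^ k = 1 → k = 0 := by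
      intro k hk
      have := orderOf_dvd_iff_zpow_eq_one.2 hk
      rw [h0] at this
      simpa using this
    have hcomm : ∀ x y : G, x * y = y * x := by
      intro x y
      obtain ⟨i, rfl⟩ := mem_zpowers_iff.1 (hc x)
      obtain ⟨j, rfl⟩ := mem_zpowers_iff.1 (hc y)
      rw [← zpow_add, ← zpow_add, add_comm]
    have hn : (zpowers (c ^ (2 : ℤ))).Normal :=
      ⟨fun x hx g => by rw [hcomm g x, mul_inv_cancel_right]; exact hx⟩
    rcases hs.eq_bot_or_eq_top_of_normal _ hn with h | h
    · rw [zpowers_eq_bot] at h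
      have := hinj _ h
      omega
    · have h3 : c ∈ zpowers (c ^ (2 : ℤ)) := by rw [h]; trivial
      obtain ⟨k, hk⟩ := mem_zpowers_iff.1 h3
      have h5 : c ^ (2 * k - 1) = 1 := by
        rw [zpow_sub, zpow_mul, hk]; group
      have := hinj _ h5
      omega

end Pool.Agent.Results.MP_3ca58e_al.SimpleReduction
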